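import Pool.Agent.Helper60K9.KL.Dual
import Pool.Agent.X302.MW.Fin

/-!
# Criteria for the powers of the monodromy on the `E_2` term, without the hard Lefschetz theorem
-/

namespace Pool.Agent.Helper60K9.KL

universe u v

open Module Pool.Agent.Y143 Pool.Agent.X302.MW

variable {Ω : Type u} [Field Ω] [CharZero Ω] {Γ : Type} {n q : ℕ}

section low

variable (X : SpecialFibre.{u, v} Ω Γ n q)

/-- Injectivity of `N ^ (a + 1)` on `H^m` from a condition on the classes on `Y^(a+1)`. -/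
lemma nInj_of (a m : ℕ)
    (hK : ∀ y ∈ X.gr a ((m : ℤ) - (a + 1)), X.gys a (X.res a y) = 0 →
      (Pi.single (a + 1) (X.res a y) : X.C) ∈
        X.coboundaries (-((a : ℤ) + 1)) ((m : ℤ) + (a + 1))) :
    NInj X.diff X.tot ((a : ℤ) + 1) ((m : ℤ) - n) := by
  rintro x ⟨hx1, hx2⟩
  obtain ⟨y, hy, hyx⟩ := hx2
  rw [show (a : ℤ) + 1 - 1 = a by ring] at hy hyx
  have hyE : y ∈ X.E₁ a ((m : ℤ) - (a + 1)) := X.mem_E₁_cast rfl (by ring) hy
  have hx0 : X.diff (-((a : ℤ) + 1)) (X.diff a y) = 0 := by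
    rw [hyx]
    exact hx1.2
  obtain ⟨h1, y', hy', h2⟩ := reduce X a _ hyE hx0
  have hya : y a ∈ X.gr a ((m : ℤ) - (a + 1)) := by
    have := (hyE a).1
    rwa [show (m : ℤ) - (a + 1) + (a : ℤ) - a = (m : ℤ) - (a + 1) by ring] at this
  have h3 := hK (y a) hya h1
  rw [X.bd_eq, show (n : ℤ) + ((m : ℤ) - n) - -((a : ℤ) + 1) = m + (a + 1) by ring, ← hyx, h2]
  refine Submodule.add_mem _ ⟨y', ?_, rfl⟩ h3
  rwa [show (m : ℤ) - (a + 1) + 2 * ((a : ℤ) + 1) = m + (a + 1) by ring] at hy'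

lemma single_mem_cob (a : ℕ) {v : X.H (a + 2)} (hv : v ∈ X.gr (a + 2) 0)
    (hR : X.res (a + 2) v = 0) :
    (Pi.single (a + 1) (X.gys (a + 1) v) : X.C) ∈
      X.coboundaries (-((a : ℤ) + 1)) (2 + 2 * ((a : ℤ) + 1)) := by
  classical
  refine ⟨Pi.single (a + 2) v, ?_, ?_⟩
  · apply X.single_mem
    · refine ⟨?_, ?_⟩
      · rw [show -((a : ℤ) + 1) - 1 = -((a : ℤ) + 2) by ring, abs_neg,
          abs_of_nonneg (by positivity)]
        push_cast
        rfl
      · refine ⟨(a : ℤ) + 2, by push_cast; ring⟩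
    · rwa [show 2 + 2 * ((a : ℤ) + 1) + (-((a : ℤ) + 1) - 1) - ((a + 2 : ℕ) : ℤ) = 0 by
        push_cast; ring]
  · funext b
    rw [X.diff_apply, show -((a : ℤ) + 1) - 1 + 1 = -((a : ℤ) + 1) by ring, X.cut_neg]
    by_cases hc : InColumn ((a : ℤ) + 1) b
    · rw [X.cut_of hc, Pi.add_apply, X.gysC_apply]
      have hab : a + 1 ≤ b := by
        have := hc.1
        rw [abs_of_nonneg (by positivity)] at this
        exact_mod_cast this
      obtain ⟨b', rfl⟩ : ∃ b', b = b' + 1 := ⟨b - 1, by omega⟩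
      rw [X.resC_succ]
      by_cases hb : b' = a
      · subst hb
        rw [Pi.single_eq_of_ne (by omega), map_zero, zero_add, Pi.single_eq_same,
          Pi.single_eq_same]
      · by_cases hb2 : b' = a + 2
        · subst hb2
          rw [Pi.single_eq_same, hR, zero_add, Pi.single_eq_of_ne (by omega), map_zero,
            Pi.single_eq_of_ne (by omega)]
        · rw [Pi.single_eq_of_ne hb2, map_zero, zero_add, Pi.single_eq_of_ne (by omega), map_zero,
            Pi.single_eq_of_ne (by omega)]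
    · rw [X.cut_of_not hc, Pi.single_eq_of_ne]
      rintro rfl
      exact hc (inCol_succ_self a)

/-- The differential of a class on `Y^(a+1)` in the column `a`. -/
lemma diff_single_pos (a : ℕ) (y : X.H a) :
    X.diff a (Pi.single a y) = Pi.single (a + 1) (X.res a y) := by
  classical
  funext b
  rw [X.diff_apply]
  by_cases hc : InColumn ((a : ℤ) + 1) b
  · rw [X.cut_of hc, Pi.add_apply, X.gysC_apply]
    have hab : a + 1 ≤ b := by
      have := hc.1
      rw [abs_of_nonneg (by positivity)] at this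
      exact_mod_cast this
    obtain ⟨b', rfl⟩ : ∃ b', b = b' + 1 := ⟨b - 1, by omega⟩
    rw [X.resC_succ, Pi.single_eq_of_ne (show b' + 1 + 1 ≠ a by omega), map_zero, add_zero]
    by_cases hb : b' = a
    · subst hb
      rw [Pi.single_eq_same, Pi.single_eq_same]
    · rw [Pi.single_eq_of_ne hb, map_zero, Pi.single_eq_of_ne (by omega)]
  · rw [X.cut_of_not hc, Pi.single_eq_of_ne]
    rintro rfl
    exact hc (inCol_succ_self a)

/-- The differential of a class on `Y^(a+2)` in the column `-(a + 1)`. -/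
lemma diff_single_neg_apply (a : ℕ) (y : X.H (a + 1)) (h1 : X.gys a y = 0)
    (h2 : X.res (a + 1) y = 0) : X.diff (-((a : ℤ) + 1)) (Pi.single (a + 1) y) = 0 := by
  classical
  funext b
  rw [X.diff_apply]
  by_cases hc : InColumn (-((a : ℤ) + 1) + 1) b
  · rw [X.cut_of hc, Pi.add_apply, X.gysC_apply]
    have e1 : X.gys b ((Pi.single (a + 1) y : X.C) (b + 1)) = 0 := by
      by_cases hb : b = a
      · subst hb
        rw [Pi.single_eq_same, h1]
      · rw [Pi.single_eq_of_ne (by omega), map_zero]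
    rw [e1, add_zero]
    cases b with
    | zero => rfl
    | succ b' =>
      rw [X.resC_succ]
      by_cases hb : b' = a + 1
      · subst hb
        rw [Pi.single_eq_same, h2]
        rfl
      · rw [Pi.single_eq_of_ne hb, map_zero]
        rfl
  · rw [X.cut_of_not hc]
    rfl

lemma inCol_self (a : ℕ) : InColumn (a : ℤ) a := ⟨by rw [Nat.abs_cast], ⟨0, by ring⟩⟩

lemma inCol_neg_self (a : ℕ) : InColumn (-(a : ℤ)) a :=
  (inColumn_neg_iff a).2 (inCol_self a)
where
  inColumn_neg_iff (a : ℕ) : InColumn (-(a : ℤ)) a ↔ InColumn (a : ℤ) a :=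
    SpecialFibre.inColumn_neg (a : ℤ) a

/-- An element of the column `±a` of total degree less than `a + 2` is concentrated on
`Y^(a+1)`. -/
lemma eq_single {a : ℕ} {r w : ℤ} (hr : |r| = a) (hw : w + r < a + 2) {x : X.C}
    (hx : x ∈ X.E₁ r w) : x = Pi.single a (x a) := by
  classical
  funext b
  by_cases hb : b = a
  · subst hb
    rw [Pi.single_eq_same]
  · rw [Pi.single_eq_of_ne hb]
    by_cases hc : InColumn r b
    · have h1 := (hx b).1
      have h2 := hc.1
      have h3 := hc.2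
      rw [hr] at h2
      have h4 : (a : ℤ) + 2 ≤ b := by
        rcases abs_cases r with ⟨h, _⟩ | ⟨h, _⟩ <;> omega
      rw [X.gr_eq_bot b _ (Or.inl (by omega))] at h1
      exact h1
    · exact (hx b).2 hc

end low

section classes

variable {X : SpecialFibre.{u, v} Ω Γ n q} (A : DivisorClasses X)
include A

/-- `N ^ m` is injective on `gr^P_(2 m) H^m`. -/
lemma nInj_top (m : ℕ) (hm : 1 ≤ m) : NInj X.diff X.tot m ((m : ℤ) - n) := by
  obtain ⟨a, rfl⟩ : ∃ a, m = a + 1 := ⟨m - 1, by omega⟩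
  have := nInj_of X a (a + 1) (fun y hy hG => ?_)
  · rwa [show ((a + 1 : ℕ) : ℤ) = (a : ℤ) + 1 by push_cast; ring] at this ⊢
  · rw [show (((a + 1 : ℕ) : ℤ)) - ((a : ℤ) + 1) = 0 by push_cast; ring] at hy
    rw [crit0 A a hy hG, Pi.single_zero]
    exact Submodule.zero_mem _

/-- `N ^ (m - 1)` is injective on `gr^P_(2 m - 1) H^m`. -/
lemma nInj_one (m : ℕ) (hm : 2 ≤ m) : NInj X.diff X.tot ((m - 1 : ℕ) : ℤ) ((m : ℤ) - n) := by
  obtain ⟨a, rfl⟩ : ∃ a, m = a + 2 := ⟨m - 2, by omega⟩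
  have := nInj_of X a (a + 2) (fun y hy hG => ?_)
  · rwa [show ((a + 2 - 1 : ℕ) : ℤ) = (a : ℤ) + 1 by push_cast; omega]
  · rw [show (((a + 2 : ℕ) : ℤ)) - ((a : ℤ) + 1) = 1 by push_cast; ring] at hy
    rw [crit1 A a hy hG, Pi.single_zero]
    exact Submodule.zero_mem _

omit A in
/-- The decomposition of `z` into a restriction and a class orthogonal to the restrictions. -/
lemma exists_harm (a s : ℕ) (w : ℤ)
    (hF : ∀ x ∈ X.gr a w, (∀ u ∈ X.gr a w, X.pair (a + 1) (X.res a x)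
      ((X.lef (a + 1) ^ s) (X.res a u)) = 0) → X.res a x = 0)
    (z : X.H (a + 1)) : ∃ x ∈ X.gr a w, ∀ u ∈ X.gr a w,
      X.pair (a + 1) (z - X.res a x) ((X.lef (a + 1) ^ s) (X.res a u)) = 0 := by
  let Q : X.H (a + 1) →ₗ[Ω] X.H (a + 1) →ₗ[Ω] Ω :=
    (X.pair (a + 1)).compl₂ (X.lef (a + 1) ^ s)
  have hQ : ∀ x y, Q x y = X.pair (a + 1) x ((X.lef (a + 1) ^ s) y) := fun x y => rfl
  let F : Submodule Ω (X.H (a + 1)) := (X.gr a w).map (X.res a)
  have hF1 : ∀ x ∈ F, (∀ y ∈ F, Q x y = 0) → x = 0 := by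
    rintro _ ⟨x, hx, rfl⟩ h
    exact hF x hx fun u hu => h _ ⟨u, hu, rfl⟩
  obtain ⟨_, ⟨x, hx, rfl⟩, hf⟩ := exists_repr Q F hF1 (Q z)
  refine ⟨x, hx, fun u hu => ?_⟩
  have h1 := hf _ (show X.res a u ∈ F from ⟨u, hu, rfl⟩)
  rw [hQ, hQ] at h1
  rw [map_sub, LinearMap.sub_apply, h1, sub_self]

end classes

end Pool.Agent.Helper60K9.KL
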