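import Pool.Agent.Helper60K9.KL.Main

/-!
# Threefolds: third cohomology of curve type, transcendental classes
-/

namespace Pool.Agent.Helper60K9.KL

universe u v

open Module Pool.Agent.Y143 Pool.Agent.X302.MW

variable {Ω : Type u} [Field Ω] [CharZero Ω] {Γ : Type} {n q : ℕ}

section

variable {X : SpecialFibre.{u, v} Ω Γ n q}

lemma primGysin_of_curves {a : ℕ} (T : ThirdOfCurves X a) : PrimGysin X a := by
  intro h hh hR hL
  replace hL : (X.lef a ^ (n - a - 2)) (X.gys a h) = 0 := hL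
  have hle : imRes X a ≤ kerRes X a := by
    rintro _ ⟨u, hu, rfl⟩
    exact ⟨X.res_gr a 1 u hu, X.res_res a u⟩
  set P := perpIn (formL X (a + 1) (n - a - 2)) (kerRes X a) (imRes X a) with hP
  have hPS : P ∈ T.S :=
    T.picard.polarized.perp _ T.picard.ker_mem _ T.picard.im_mem hle
  have hPprop : ∀ x ∈ P, x ∈ X.gr (a + 1) 1 ∧ X.res (a + 1) x = 0 ∧
      X.gys a x ∈ prim3 X a := by
    rintro x ⟨⟨hx1, hx2⟩, hx3⟩
    refine ⟨hx1, hx2, by simpa using X.gys_gr a 1 x hx1, lef_gys_eq_zero a hx1 fun u hu => ?_⟩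
    exact hx3 _ ⟨u, hu, rfl⟩
  have hhP : h ∈ P := by
    refine ⟨⟨hh, hR⟩, ?_⟩
    rintro _ ⟨u, hu, rfl⟩
    show X.pair (a + 1) h ((X.lef (a + 1) ^ (n - a - 2)) (X.res a u)) = 0
    rw [← res_lef_pow, ← X.pair_gys, ← lef_pow_pair, hL, map_zero, LinearMap.zero_apply]
  have hmem := T.hom P hPS fun x hx => ⟨(hPprop x hx).1, (hPprop x hx).2.2⟩
  have hprim : X.gys a h ∈ prim3 X a := (hPprop h hhP).2.2
  have g1 : T.j (X.gys a h) = 0 := by
    apply T.polarized.nondeg _ hmem _ ⟨h, hhP, rfl⟩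
    rintro _ ⟨h', hh', rfl⟩
    obtain ⟨e1, e2, e3⟩ := hPprop h' hh'
    have e4 := T.isometry.isometry (X.gys a h) hprim (X.gys a h') e3
    show ev T.E (T.j (X.gys a h)) (T.j (X.gys a h')) = 0
    rw [e4]
    show -X.pair a (X.gys a h) ((X.lef a ^ (n - a - 3)) (X.gys a h')) = 0
    have e5 := X.res_gys a h'
    rw [e2, map_zero, add_zero] at e5
    rw [X.pair_gys, res_lef_pow, e5, map_zero, map_zero, neg_zero]
  exact T.isometry.inj _ hprim g1

lemma primGysin_of_no {a : ℕ} (h : NoObstruction X a) : PrimGysin X a := by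
  rcases h with h | h | h
  · intro x hx _ _
    rw [h] at hx
    rw [show x = 0 from hx, map_zero]
  · intro x hx _ _
    have h1 := X.gys_gr a 1 x hx
    rw [show (1 : ℤ) + 2 = 3 by norm_num, h] at h1
    exact h1
  · obtain ⟨T⟩ := h
    exact primGysin_of_curves T

lemma divCrit_of_trans (A : DivisorClasses X) {a : ℕ} (ha : a + 3 ≤ n) (h : TransNondeg A a) :
    DivCrit X a := by
  obtain ⟨T, hT2, hT, ho, hn⟩ := h
  have ho' : ∀ t ∈ T, ∀ d ∈ Submodule.span Ω (A.A1 a : Set (X.H a)),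
      X.pair (a + 1) (X.res a t) ((X.lef (a + 1) ^ (n - a - 3)) (X.res a d)) = 0 := by
    intro t ht d hd
    have hle : Submodule.span Ω (A.A1 a : Set (X.H a)) ≤
        LinearMap.ker ((X.pair (a + 1) (X.res a t)) ∘ₗ
          (X.lef (a + 1) ^ (n - a - 3)) ∘ₗ X.res a) :=
      Submodule.span_le.2 fun u hu => ho t ht u hu
    exact hle hd
  intro y hy hG
  obtain ⟨d, hd, t, ht, rfl⟩ := Submodule.mem_sup.1 (hT hy)
  have hd2 : d ∈ X.gr a 2 := by
    have hle : Submodule.span Ω (A.A1 a : Set (X.H a)) ≤ X.gr a 2 :=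
      Submodule.span_le.2 fun u hu => A.A1_le a u hu
    exact hle hd
  have ht0 : X.res a t = 0 := by
    apply hn t ht
    intro t' ht'
    show X.pair (a + 1) (X.res a t) ((X.lef (a + 1) ^ (n - a - 3)) (X.res a t')) = 0
    have e1 : X.pair (a + 1) (X.res a (d + t))
        ((X.lef (a + 1) ^ (n - a - 3)) (X.res a t')) = 0 := by
      rw [← res_lef_pow, ← X.pair_gys, hG, map_zero, LinearMap.zero_apply]
    have e2 : X.pair (a + 1) (X.res a d)
        ((X.lef (a + 1) ^ (n - a - 3)) (X.res a t')) = 0 := by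
      rw [← lef_pow_pair, X.pair_symm (a + 1) 2 _ _ (X.res_gr a 2 _ (hT2 ht')),
        ho' t' ht' d hd, mul_zero]
    rw [map_add, map_add, LinearMap.add_apply, e2, zero_add] at e1
    exact e1
  rw [map_add, ht0, add_zero] at hG ⊢
  exact crit2 A a ha hd hG

end

end Pool.Agent.Helper60K9.KL
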