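import Pool.Agent.Y143.Divisors

/-!
# Kato's log `ℓ`-adic monodromy-weight conjecture: definitions
-/

namespace Pool.Agent.Helper60K9.KL

universe u v

open Module Pool.Agent.Y143

/-! ### The powers of the monodromy on the graded pieces -/

section Mono

variable {Ω : Type u} [Field Ω] {V : Type v} [AddCommGroup V] [Module Ω V]

/-- `N ^ e : W_(m+e) / W_(m+e-1) → W_(m-e) / W_(m-e-1)` is injective. -/
def InjGr (N : Module.End Ω V) (W : ℤ → Submodule Ω V) (m e : ℕ) : Prop :=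
  ∀ v ∈ W ((m : ℤ) + e), pw N e v ∈ W ((m : ℤ) - e - 1) → v ∈ W ((m : ℤ) + e - 1)

/-- `N ^ e : W_(m+e) / W_(m+e-1) → W_(m-e) / W_(m-e-1)` is surjective. -/
def SurjGr (N : Module.End Ω V) (W : ℤ → Submodule Ω V) (m e : ℕ) : Prop :=
  ∀ v ∈ W ((m : ℤ) - e), ∃ u ∈ W ((m : ℤ) + e), v - pw N e u ∈ W ((m : ℤ) - e - 1)

end Mono

/-! ### Polarized abelian varieties -/

section Abelian

variable {Ω : Type u} [Field Ω] {V : Type v} [AddCommGroup V] [Module Ω V]

/-- The elements of `U` orthogonal to `U'` for the form `E`. -/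
def perpIn (E : V →ₗ[Ω] V →ₗ[Ω] Ω) (U U' : Submodule Ω V) : Submodule Ω V where
  carrier := {x | x ∈ U ∧ ∀ y ∈ U', E x y = 0}
  add_mem' := by
    rintro a b ⟨ha, ha'⟩ ⟨hb, hb'⟩
    exact ⟨U.add_mem ha hb, fun y hy => by
      rw [map_add, LinearMap.add_apply, ha' y hy, hb' y hy, add_zero]⟩
  zero_mem' := ⟨U.zero_mem, fun y _ => by rw [map_zero, LinearMap.zero_apply]⟩
  smul_mem' := by
    rintro c a ⟨ha, ha'⟩
    exact ⟨U.smul_mem c ha, fun y hy => by
      rw [map_smul, LinearMap.smul_apply, ha' y hy, smul_zero]⟩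

/-- `V` is the rational Tate module of an abelian variety (with coefficients `Ω`), `E` is the form
given by a polarization and `S` is the set of the Tate modules of the abelian subvarieties:
`E` is nondegenerate on each of them (Weil), and the orthogonal complement of an abelian subvariety
in a larger one is an abelian subvariety. -/
structure IsPolarized (E : V →ₗ[Ω] V →ₗ[Ω] Ω) (S : Set (Submodule Ω V)) : Prop where
  nondeg : ∀ U ∈ S, ∀ x ∈ U, (∀ y ∈ U, ev E x y = 0) → x = 0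
  perp : ∀ U ∈ S, ∀ U' ∈ S, U' ≤ U → perpIn E U U' ∈ S

/-- The form `B(x, L^s y)`. -/
def twist (B : V →ₗ[Ω] V →ₗ[Ω] Ω) (L : Module.End Ω V) (s : ℕ) : V →ₗ[Ω] V →ₗ[Ω] Ω :=
  B.compl₂ (L ^ s)

/-- The kernel of `L ^ s` on `G`. -/
def primPart (G : Submodule Ω V) (L : Module.End Ω V) (s : ℕ) : Submodule Ω V :=
  G ⊓ LinearMap.ker (L ^ s)

end Abelian

/-! ### The criteria -/

section Criteria

variable {Ω : Type u} [Field Ω] {H₀ : Type v} [AddCommGroup H₀] [Module Ω H₀]
  {H₁ : Type v} [AddCommGroup H₁] [Module Ω H₁] {H₂ : Type v} [AddCommGroup H₂] [Module Ω H₂]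
  {H₃ : Type v} [AddCommGroup H₃] [Module Ω H₃]

/-- If `h ∈ G`, `ρ h = 0` and `L^s (τ h) = 0`, then `τ h = 0`. -/
def GysinCrit (G : Submodule Ω H₁) (ρ : H₁ →ₗ[Ω] H₂) (τ : H₁ →ₗ[Ω] H₀) (L : Module.End Ω H₀)
    (s : ℕ) : Prop := ∀ h ∈ G, ρ h = 0 → pw L s (τ h) = 0 → τ h = 0

/-- If `y ∈ G` and `τ (ρ y) = 0`, then `ρ y = τ' v` for some `v ∈ G'` with `ρ' v = 0`. -/
def RestrCrit (G : Submodule Ω H₀) (G' : Submodule Ω H₂) (ρ : H₀ →ₗ[Ω] H₁) (τ : H₁ →ₗ[Ω] H₀)
    (τ' : H₂ →ₗ[Ω] H₁) (ρ' : H₂ →ₗ[Ω] H₃) : Prop :=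
  ∀ y ∈ G, τ (ρ y) = 0 → ∃ v ∈ G', ρ' v = 0 ∧ ρ y = τ' v

/-- If `y ∈ G` and `τ (ρ y) = 0`, then `ι (ρ y) ∈ B`. -/
def CobCrit (G : Submodule Ω H₀) (ρ : H₀ →ₗ[Ω] H₁) (τ : H₁ →ₗ[Ω] H₀) (ι : H₁ →ₗ[Ω] H₂)
    (B : Submodule Ω H₂) : Prop := ∀ y ∈ G, τ (ρ y) = 0 → ι (ρ y) ∈ B

/-- If `y ∈ G` and `τ (ρ y) = 0`, then `ρ y = 0`. -/
def ZeroCrit (G : Submodule Ω H₀) (ρ : H₀ →ₗ[Ω] H₁) (τ : H₁ →ₗ[Ω] H₀) : Prop :=
  ∀ y ∈ G, τ (ρ y) = 0 → ρ y = 0

/-- `G` is spanned by the group `A` and a subspace `T` of `G` such that `ρ T` is orthogonal to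
`ρ A` for the form `F`, and `F` is nondegenerate on `ρ T`. -/
def SpanCrit (G : Submodule Ω H₀) (A : AddSubgroup H₀) (ρ : H₀ →ₗ[Ω] H₁)
    (F : H₁ →ₗ[Ω] H₁ →ₗ[Ω] Ω) : Prop :=
  ∃ T ≤ G, G ≤ Submodule.span Ω (A : Set H₀) ⊔ T ∧
    (∀ t ∈ T, ∀ d ∈ A, ev F (ρ t) (ρ d) = 0) ∧
    ∀ t ∈ T, (∀ t' ∈ T, ev F (ρ t) (ρ t') = 0) → ρ t = 0

/-- The map `j` is injective on `P`, and multiplies the form `F` by `-1` there. -/
structure IsAntiIsometry (P : Submodule Ω H₀) (F : H₀ →ₗ[Ω] H₀ →ₗ[Ω] Ω)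
    (E : H₁ →ₗ[Ω] H₁ →ₗ[Ω] Ω) (j : H₀ →ₗ[Ω] H₁) : Prop where
  isometry : ∀ x ∈ P, ∀ y ∈ P, ev E (j x) (j y) = -ev F x y
  inj : ∀ x ∈ P, j x = 0 → x = 0

/-- The map `f` maps the members of `S` contained in `D` to members of `S'`. -/
def MapsSubs (S : Set (Submodule Ω H₀)) (D : Submodule Ω H₀) (S' : Set (Submodule Ω H₁))
    (f : H₀ →ₗ[Ω] H₁) : Prop := ∀ U ∈ S, U ≤ D → U.map f ∈ S'

end Criteria

variable {Ω : Type u} [Field Ω] [CharZero Ω] {Γ : Type} {n q : ℕ}

/-! ### Kato's conjecture -/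

section Kato

variable (X : SemistableModel.{u, v} Ω Γ n q)

/-- The map `N ^ e : gr^P_(m + e) H^m → gr^P_(m - e) H^m` is injective. -/
def GrInj (m e : ℕ) : Prop := InjGr (X.N m) (X.W m) m e

/-- The map `N ^ e : gr^P_(m + e) H^m → gr^P_(m - e) H^m` is surjective. -/
def GrSurj (m e : ℕ) : Prop := SurjGr (X.N m) (X.W m) m e

/-- The map `N ^ e : gr^P_(m + e) H^m → gr^P_(m - e) H^m` is an isomorphism. -/
def GrIso (m e : ℕ) : Prop := GrInj X m e ∧ GrSurj X m e

/-- Kato's conjecture for `H^m`: the weight filtration `P`, shifted by `m`, is the monodromy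
filtration of `N`. -/
def KatoAt (m : ℕ) : Prop := IsMonodromyFiltration (X.N m) (fun a => X.W m ((m : ℤ) + a))

end Kato

/-! ### The criteria for the strata -/

section Strata

variable (X : SpecialFibre.{u, v} Ω Γ n q)

/-- A class `h` in `H^1(Y^(a+2))` with vanishing restriction to `Y^(a+3)` whose Gysin image in
`H^3(Y^(a+1))` is primitive (it is killed by `L^(n - a - 2)`) has Gysin image zero. -/
def PrimGysin (a : ℕ) : Prop :=
  GysinCrit (X.gr (a + 1) 1) (X.res (a + 1)) (X.gys a) (X.lef a) (n - a - 2)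

/-- If `y` in `H^2(Y^(a+1))` and the Gysin image of its restriction to `Y^(a+2)` vanishes, then the
restriction is the Gysin image of a class `v` in `H^0(Y^(a+3))` with vanishing restriction to
`Y^(a+4)`. -/
def DivCrit (a : ℕ) : Prop :=
  RestrCrit (X.gr a 2) (X.gr (a + 2) 0) (X.res a) (X.gys a) (X.gys (a + 1)) (X.res (a + 2))

/-- The element of the family of cohomology groups with component `z` in `H^*(Y^(a+1))`, and `0`
in the others. -/
noncomputable def inj (a : ℕ) : X.H a →ₗ[Ω] X.C := LinearMap.single Ω X.H a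

/-- If `y` is in `H^(n - a - 1)(Y^(a+1))` and the Gysin image of its restriction `ρ y` to `Y^(a+2)`
vanishes, then `ρ y` is a coboundary in the column `-(a + 1)` of the weight spectral sequence. -/
def MidCrit (a : ℕ) : Prop :=
  CobCrit (X.gr a ((n : ℤ) - (a + 1))) (X.res a) (X.gys a) (inj X (a + 1))
    (X.coboundaries (-((a : ℤ) + 1)) ((n : ℤ) + (a + 1)))

/-- For `a + 4 ≤ n`: if `y` is in `H^(n - a - 1)(Y^(a+1))` and the Gysin image of its restriction to
`Y^(a+2)` vanishes, then the restriction vanishes. -/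
def HighCrit : Prop :=
  ∀ a : ℕ, a + 4 ≤ n → ZeroCrit (X.gr a ((n : ℤ) - (a + 1))) (X.res a) (X.gys a)

/-- The form `B(x, L^s y)` on the cohomology of `Y^(a+1)`. -/
def formL (a s : ℕ) : X.H a →ₗ[Ω] X.H a →ₗ[Ω] Ω := twist (X.pair a) (X.lef a) s

/-- The primitive part of `H^3(Y^(a+1))`: the kernel of `L^(n - a - 2)`. -/
def prim3 (a : ℕ) : Submodule Ω (X.H a) := primPart (X.gr a 3) (X.lef a) (n - a - 2)

/-- The classes in `H^1(Y^(a+2))` whose Gysin image in `H^3(Y^(a+1))` is primitive. -/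
def primGys (a : ℕ) : Submodule Ω (X.H (a + 1)) := X.gr (a + 1) 1 ⊓ (prim3 X a).comap (X.gys a)

/-- The classes in `H^1(Y^(a+2))` with vanishing restriction to `Y^(a+3)`. -/
def kerRes (a : ℕ) : Submodule Ω (X.H (a + 1)) :=
  X.gr (a + 1) 1 ⊓ LinearMap.ker (X.res (a + 1))

/-- The restrictions of the classes in `H^1(Y^(a+1))` to `Y^(a+2)`. -/
def imRes (a : ℕ) : Submodule Ω (X.H (a + 1)) := (X.gr a 1).map (X.res a)

/-- `S` is the set of the rational Tate modules of the abelian subvarieties of the Picard variety of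
`Y^(a+2)`, in `H^1(Y^(a+2))` with the polarization form `B(x, L^(n - a - 2) y)`. It contains the
kernel of the restriction to `Y^(a+3)` and the image of the restriction from `Y^(a+1)`. -/
structure IsPicard (a : ℕ) (S : Set (Submodule Ω (X.H (a + 1)))) : Prop where
  polarized : IsPolarized (formL X (a + 1) (n - a - 2)) S
  ker_mem : kerRes X a ∈ S
  im_mem : imRes X a ∈ S

/-- The primitive part of the third cohomology `H^3(Y^(a+1))` comes from curves. The data are: the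
Tate modules `S` of the abelian subvarieties of the Picard variety of `Y^(a+2)`; an abelian variety
(a product of Jacobians) with Tate module `J`, polarization form `E` and abelian subvarieties `SJ`;
and a map `j` from `H^3(Y^(a+1))` to `J` which is injective on primitive classes and respects the
forms up to sign, and for which the composite `H^1(Y^(a+2)) → H^3(Y^(a+1)) → J` (Gysin map and `j`)
is induced by homomorphisms of abelian varieties on the classes with primitive Gysin image. -/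
structure ThirdOfCurves (a : ℕ) where
  S : Set (Submodule Ω (X.H (a + 1)))
  picard : IsPicard X a S
  J : Type v
  [addCommGroup : AddCommGroup J]
  [module : Module Ω J]
  E : J →ₗ[Ω] J →ₗ[Ω] Ω
  SJ : Set (Submodule Ω J)
  polarized : IsPolarized E SJ
  j : X.H a →ₗ[Ω] J
  isometry : IsAntiIsometry (prim3 X a) (formL X a (n - a - 3)) E j
  hom : MapsSubs S (primGys X a) SJ (j ∘ₗ X.gys a)

attribute [instance] ThirdOfCurves.addCommGroup ThirdOfCurves.module

/-- The classes in `H^1` of the double surfaces do not obstruct the conjecture for `H^2` and `H^4`: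
`H^1(Y^(a+2)) = 0`, or `H^3(Y^(a+1)) = 0`, or the primitive part of `H^3(Y^(a+1))` comes from
curves. -/
def NoObstruction (a : ℕ) : Prop :=
  X.gr (a + 1) 1 = ⊥ ∨ X.gr a 3 = ⊥ ∨ Nonempty (ThirdOfCurves X a)

/-- The second cohomology of `Y^(a+1)` is spanned by the divisor classes and a space `T` of
(transcendental) classes whose restrictions to `Y^(a+2)` are orthogonal to the restrictions of the
divisor classes, and the form `B(x, L^(n - a - 3) y)` of `H^2(Y^(a+2))` is nondegenerate on the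
restriction of `T`. -/
def TransNondeg {X : SpecialFibre.{u, v} Ω Γ n q} (A : DivisorClasses X) (a : ℕ) : Prop :=
  SpanCrit (X.gr a 2) (A.A1 a) (X.res a) (formL X (a + 1) (n - a - 3))

end Strata

end Pool.Agent.Helper60K9.KL
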