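import Pool.Agent.Y143.Pure
import Pool.Agent.X302.MW.Low
import Pool.Agent.Helper60K9.KL.Defs

/-!
# Duality of the `E_2` term without the hard Lefschetz theorem, and the passage to `H^m`
-/

namespace Pool.Agent.Helper60K9.KL

universe u v

open Module Pool.Agent.Y143

variable {Ω : Type u} [Field Ω] [CharZero Ω] {Γ : Type} {n q : ℕ}

section E1

variable (X : SpecialFibre.{u, v} Ω Γ n q)

lemma tot_neg (i j : ℤ) : X.tot (-i) j = X.tot i j := by
  unfold SpecialFibre.tot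
  have := X.E₁_neg i (n + j - i)
  rwa [show (n : ℤ) + j - i + 2 * i = n + j - -i by ring] at this

lemma annR_zc (i j : ℤ) :
    annR X.psi (Zc X.diff X.tot i j) (X.tot (-i) (-j)) = Bd X.diff X.tot (-i) (-j) := by
  have h := X.lefDual
  have h1 := h.perf (i + 1) (j + 1)
  have h2 : Perf X.psi (X.tot (i + 1) (j + 1)) (X.tot (-i - 1) (-j - 1)) := by
    rwa [show -(i + 1) = -i - 1 by ring, show -(j + 1) = -j - 1 by ring] at h1
  exact annR_ker (h.perf i j) h2 (fun x hx => X.mem_E₁_cast rfl (by ring) (X.diff_mem hx))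
    (fun y hy => X.mem_E₁_cast (by ring) (by ring) (X.diff_mem hy))
    (fun x hx y hy => h.adj_d _ _ _ _ hx hy)

lemma annR_bd (i j : ℤ) :
    annR X.psi (Bd X.diff X.tot i j) (X.tot (-i) (-j)) = Zc X.diff X.tot (-i) (-j) := by
  have h := X.lefDual
  have h1 := h.perf (i - 1) (j - 1)
  refine annR_map h1 (fun y hy => ?_) (fun x hx y hy => ?_)
  · exact X.mem_E₁_cast (by ring) (by ring) (X.diff_mem hy)
  · have := h.adj_d (i - 1) (j - 1) x y hx (X.mem_E₁_cast (by ring) (by ring) hy)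
    rwa [show -(i - 1) - 1 = -i by ring] at this

lemma bd_le_zc (i j : ℤ) : Bd X.diff X.tot i j ≤ Zc X.diff X.tot i j := by
  rw [X.bd_eq, X.zc_eq]
  exact X.bd_le_zc _ _

lemma bd_le_tot (i j : ℤ) : Bd X.diff X.tot i j ≤ X.tot i j :=
  (bd_le_zc X i j).trans inf_le_left

lemma nSurj_of_nInj (i j : ℤ) (hI : NInj X.diff X.tot i (-j)) : NSurj X.diff X.tot i j := by
  have hP := X.lefDual.perf i j
  have hU : Zc X.diff X.tot (-i) j ⊔ Bd X.diff X.tot i j ≤ X.tot i j := by
    apply sup_le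
    · intro x hx
      rw [← tot_neg]
      exact hx.1
    · exact bd_le_tot X i j
  have hZ : Zc X.diff X.tot i j ≤ X.tot i j := inf_le_left
  have e1 := hP.annR_annR hU
  have e2 := hP.annR_annR hZ
  have e3 : annR X.psi (Zc X.diff X.tot (-i) j ⊔ Bd X.diff X.tot i j) (X.tot (-i) (-j)) ≤
      annR X.psi (Zc X.diff X.tot i j) (X.tot (-i) (-j)) := by
    rw [annR_zc, annR_sup, annR_bd]
    intro y hy
    apply hI
    refine ⟨hy.2, ?_⟩
    have h3 := annR_zc X (-i) j
    rw [neg_neg, ← tot_neg] at h3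
    rw [← h3]
    exact hy.1
  have e4 := annR_mono (ψ := X.psi.flip) (A' := X.tot i j) e3
  rw [e1, e2] at e4
  exact e4

lemma nInj_of_nSurj (i j : ℤ) (hS : NSurj X.diff X.tot i (-j)) : NInj X.diff X.tot i j := by
  rintro x ⟨hx1, hx2⟩
  have e1 := annR_zc X i (-j)
  rw [neg_neg] at e1
  -- `x` is orthogonal to the cocycles
  have hf : ∀ i j : ℤ, annR X.psi.flip (Zc X.diff X.tot (-i) (-j)) (X.tot i j) =
      Bd X.diff X.tot i j := by
    intro i j
    have h1 := (X.lefDual.perf i j).annR_annR (bd_le_tot X i j)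
    rwa [annR_bd] at h1
  have hf2 : ∀ i j : ℤ, annR X.psi.flip (Bd X.diff X.tot (-i) (-j)) (X.tot i j) =
      Zc X.diff X.tot i j := by
    intro i j
    have h1 := (X.lefDual.perf i j).annR_annR (show Zc X.diff X.tot i j ≤ X.tot i j from
      inf_le_left)
    rwa [annR_zc] at h1
  have g1 := hf (-i) j
  rw [neg_neg] at g1
  rw [← g1]
  refine ⟨hx1.1, fun y hy => ?_⟩
  obtain ⟨u, hu, v, hv, rfl⟩ := Submodule.mem_sup.1 (hS hy)
  have g2 := hf2 (-i) j
  rw [neg_neg] at g2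
  have hx1' := hx1
  rw [← g2] at hx1'
  have hx2' := hx2
  rw [← hf i j] at hx2'
  rw [map_add, LinearMap.add_apply, hx1'.2 v hv, hx2'.2 u hu, add_zero]

/-- Poincare duality: injectivity in degree `m` is surjectivity in degree `2 n - m`. -/
lemma nInj_iff_nSurj (i j : ℤ) : NInj X.diff X.tot i j ↔ NSurj X.diff X.tot i (-j) := by
  constructor
  · intro h
    apply nSurj_of_nInj
    rwa [neg_neg]
  · exact nInj_of_nSurj X i j

lemma tot_eq_bot (e m : ℕ) (h : m < e ∨ 2 * n < m + e) : X.tot e ((m : ℤ) - n) = ⊥ := by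
  rw [eq_bot_iff]
  intro x hx
  rw [Submodule.mem_bot]
  funext a
  by_cases hc : InColumn e a
  · have h1 := (hx a).1
    have h2 : (e : ℤ) ≤ a := by
      have := hc.1
      rwa [Nat.abs_cast] at this
    have h3 : X.gr a ((n : ℤ) + ((m : ℤ) - n) - e + e - a) = ⊥ := by
      apply X.gr_eq_bot
      rcases h with h | h
      · left; omega
      · right; omega
    rw [h3] at h1
    exact h1
  · exact (hx a).2 hc

lemma nInj_triv (e m : ℕ) (h : m < e ∨ 2 * n < m + e) : NInj X.diff X.tot e ((m : ℤ) - n) := by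
  rintro x ⟨hx1, -⟩
  have h1 := hx1.1
  rw [tot_neg, tot_eq_bot X e m h] at h1
  rw [show x = 0 from h1]
  exact Submodule.zero_mem _

lemma nSurj_triv (e m : ℕ) (h : m < e ∨ 2 * n < m + e) : NSurj X.diff X.tot e ((m : ℤ) - n) := by
  rintro x hx1
  have h1 := hx1.1
  rw [tot_eq_bot X e m h] at h1
  rw [show x = 0 from h1]
  exact Submodule.zero_mem _

end E1

/-! ### The graded pieces of the weight filtration on `H^m` -/

section Generic

variable (X : SemistableModel.{u, v} Ω Γ n q)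

lemma bd_cob (m : ℕ) (a : ℤ) :
    Bd X.diff X.tot a ((m : ℤ) - n) = X.coboundaries a ((m : ℤ) - a) := by
  rw [X.bd_eq]
  congr 1
  ring

lemma zc_cyc (m : ℕ) (a : ℤ) :
    Zc X.diff X.tot a ((m : ℤ) - n) = X.cocycles a ((m : ℤ) - a) := by
  rw [X.zc_eq]
  congr 1
  ring

lemma grInj_iff (m e : ℕ) : GrInj X m e ↔ NInj X.diff X.tot e ((m : ℤ) - n) := by
  constructor
  · rintro h x ⟨hx1, hx2⟩
    rw [zc_cyc X m, show (m : ℤ) - -(e : ℤ) = m + e by ring] at hx1
    rw [bd_cob X m] at hx2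
    rw [bd_cob X m, show (m : ℤ) - -(e : ℤ) = m + e by ring]
    obtain ⟨v, hv⟩ := X.sp_right m ((m : ℤ) + e) x (by
      rwa [show (m : ℤ) - ((m : ℤ) + e) = -e by ring])
    have h1 := X.N_pow_sp hv e le_rfl
    have h2 : (X.N m ^ e) v ∈ X.W m ((m : ℤ) + e - 2 * e - 1) := by
      apply (X.sp_ker m _ _ _ h1).2
      rwa [show (m : ℤ) - ((m : ℤ) + e - 2 * e) = e by ring,
        show (m : ℤ) + e - 2 * e = m - e by ring]
    have h3 := h v (X.sp_mem m _ _ _ hv).1 (X.W_cast (by ring) h2)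
    have h4 := (X.sp_ker m _ _ _ hv).1 h3
    rwa [show (m : ℤ) - ((m : ℤ) + e) = -e by ring] at h4
  · intro h v hv hN
    obtain ⟨x, hx⟩ := X.sp_left m _ v hv
    have h1 := X.N_pow_sp hx e le_rfl
    have h2 := (X.sp_ker m _ _ _ h1).1 (X.W_cast (by ring) hN)
    have h3 := (X.sp_mem m _ _ _ hx).2
    rw [show (m : ℤ) - ((m : ℤ) + e - 2 * e) = e by ring,
      show (m : ℤ) + e - 2 * e = m - e by ring, ← bd_cob X m] at h2
    have h4 : x ∈ Zc X.diff X.tot (-e) ((m : ℤ) - n) := by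
      rw [zc_cyc X m]
      rwa [show (m : ℤ) - (m + e) = -e by ring, show (m : ℤ) + e = m - -e by ring] at h3
    have h5 := h ⟨h4, h2⟩
    rw [bd_cob X m] at h5
    exact (X.sp_ker m _ _ _ hx).2 (by
      rwa [show (m : ℤ) - (m + e) = -e by ring, show (m : ℤ) + e = m - -e by ring])

lemma grSurj_iff (m e : ℕ) : GrSurj X m e ↔ NSurj X.diff X.tot e ((m : ℤ) - n) := by
  constructor
  · rintro h y hy
    rw [zc_cyc X m] at hy
    obtain ⟨v, hv⟩ := X.sp_right m ((m : ℤ) - e) y (by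
      rwa [show (m : ℤ) - ((m : ℤ) - e) = e by ring])
    obtain ⟨u, hu, huv⟩ := h v (X.sp_mem m _ _ _ hv).1
    obtain ⟨x, hx⟩ := X.sp_left m _ u hu
    have h1 := X.N_pow_sp hx e le_rfl
    have h2 : (v - (X.N m ^ e) u, y - x) ∈ X.sp m ((m : ℤ) - e) := by
      have h4 := Submodule.sub_mem _ hv
        (X.sp_cast (show (m : ℤ) + e - 2 * e = m - e by ring) h1)
      exact h4
    have h3 := (X.sp_ker m _ _ _ h2).1 huv
    rw [show (m : ℤ) - ((m : ℤ) - e) = e by ring, ← bd_cob X m] at h3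
    have h5 := (X.sp_mem m _ _ _ hx).2
    refine Submodule.mem_sup.2 ⟨x, ?_, y - x, h3, by abel⟩
    rw [zc_cyc X m]
    rwa [show (m : ℤ) - (m + e) = -e by ring, show (m : ℤ) + e = m - -e by ring] at h5
  · intro h v hv
    obtain ⟨y, hy⟩ := X.sp_left m _ v hv
    have h1 := (X.sp_mem m _ _ _ hy).2
    rw [show (m : ℤ) - (m - e) = e by ring, ← zc_cyc X m] at h1
    obtain ⟨x, hx, b, hb, hxb⟩ := Submodule.mem_sup.1 (h h1)
    rw [zc_cyc X m] at hx
    obtain ⟨v', hv'⟩ := X.sp_right m ((m : ℤ) + e) x (by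
      rwa [show (m : ℤ) - (m + e) = -e by ring, show (m : ℤ) + e = m - -e by ring])
    refine ⟨v', (X.sp_mem m _ _ _ hv').1, ?_⟩
    have h2 := X.N_pow_sp hv' e le_rfl
    have h3 : (v - (X.N m ^ e) v', b) ∈ X.sp m ((m : ℤ) - e) := by
      have h4 := Submodule.sub_mem _ hy
        (X.sp_cast (show (m : ℤ) + e - 2 * e = m - e by ring) h2)
      have h5 : b = y - x := by rw [← hxb]; abel
      rw [h5]
      exact h4
    exact (X.sp_ker m _ _ _ h3).2 (by
      rw [show (m : ℤ) - (m - e) = e by ring, ← bd_cob X m]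
      exact hb)

/-- Poincare duality. -/
lemma grInj_dual (m m' e : ℕ) (h : m + m' = 2 * n) : GrInj X m e ↔ GrSurj X m' e := by
  rw [grInj_iff, grSurj_iff, nInj_iff_nSurj]
  rw [show -((m : ℤ) - n) = (m' : ℤ) - n by omega]

lemma grIso_dual (m m' e : ℕ) (h : m + m' = 2 * n) : GrIso X m e ↔ GrIso X m' e := by
  unfold GrIso
  rw [grInj_dual X m m' e h, ← grInj_dual X m' m e (by omega), and_comm]

lemma grIso_triv (m e : ℕ) (h : m < e ∨ 2 * n < m + e) : GrIso X m e :=
  ⟨(grInj_iff X m e).2 (nInj_triv _ e m h), (grSurj_iff X m e).2 (nSurj_triv _ e m h)⟩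

lemma katoAt_iff (m : ℕ) : KatoAt X m ↔ ∀ e : ℕ, 1 ≤ e → GrIso X m e := by
  constructor
  · rintro h e -
    refine ⟨fun v hv hN => ?_, fun v hv => ?_⟩
    · exact X.W_cast (by ring) (h.inj e v hv (X.W_cast (by ring) hN))
    · obtain ⟨u, hu, huv⟩ := h.surj e v (X.W_cast (by ring) hv)
      exact ⟨u, hu, X.W_cast (by ring) huv⟩
  · intro h
    refine ⟨fun a b hab => X.W_mono m (by omega), ?_, ?_, ?_, ?_, ?_⟩
    · obtain ⟨w, hw⟩ := X.W_bot m
      refine ⟨w - m, ?_⟩
      show X.W m ((m : ℤ) + (w - m)) = ⊥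
      rw [show (m : ℤ) + (w - m) = w by ring, hw]
    · obtain ⟨w, hw⟩ := X.W_top m
      refine ⟨w - m, ?_⟩
      show X.W m ((m : ℤ) + (w - m)) = ⊤
      rw [show (m : ℤ) + (w - m) = w by ring, hw]
    · intro a v hv
      obtain ⟨x, hx⟩ := X.sp_left m _ v hv
      exact X.W_cast (by ring) (X.sp_mem m _ _ _ (X.sp_N m _ _ _ hx)).1
    · intro a v hv hN
      rcases Nat.eq_zero_or_pos a with rfl | ha
      · rw [pow_zero] at hN
        exact X.W_cast (by push_cast; ring) hN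
      · exact X.W_cast (by ring) ((h a ha).1 v hv (X.W_cast (by ring) hN))
    · intro a v hv
      rcases Nat.eq_zero_or_pos a with rfl | ha
      · refine ⟨v, X.W_cast (by push_cast; ring) hv, ?_⟩
        rw [pow_zero, Module.End.one_apply, sub_self]
        exact Submodule.zero_mem _
      · obtain ⟨u, hu, huv⟩ := (h a ha).2 v (X.W_cast (by ring) hv)
        exact ⟨u, hu, X.W_cast (by ring) huv⟩

lemma katoAt_dual (m m' : ℕ) (h : m + m' = 2 * n) : KatoAt X m ↔ KatoAt X m' := by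
  rw [katoAt_iff, katoAt_iff]
  exact forall_congr' fun e => imp_congr_right fun _ => grIso_dual X m m' e h

end Generic

end Pool.Agent.Helper60K9.KL
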