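import Pool.Agent.Helper60K9.KL.Crit

/-!
# The monodromy-weight conjecture without the hard Lefschetz theorem: relative dimension three
-/

namespace Pool.Agent.Helper60K9.KL

universe u v

open Module Pool.Agent.Y143 Pool.Agent.X302.MW

variable {Ω : Type u} [Field Ω] [CharZero Ω] {Γ : Type} {n q : ℕ}

section low

variable (X : SpecialFibre.{u, v} Ω Γ n q)

lemma nSurj_of_decomp (a m : ℕ) (hm : m ≤ a + 2)
    (hK : ∀ z ∈ X.gr (a + 1) ((m : ℤ) - (a + 1)), X.res (a + 1) z = 0 →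
      ∃ x ∈ X.gr a ((m : ℤ) - (a + 1)), X.gys a (z - X.res a x) = 0) :
    NSurj X.diff X.tot ((a : ℤ) + 1) ((m : ℤ) - n) := by
  rintro z ⟨hz1, hz2⟩
  have hzE : z ∈ X.E₁ ((a : ℤ) + 1) ((m : ℤ) - (a + 1)) := X.mem_E₁_cast rfl (by ring) hz1
  have hz := eq_single X (a := a + 1)
    (by rw [abs_of_nonneg (by positivity)]; push_cast; rfl) (by push_cast; omega) hzE
  have hg : z (a + 1) ∈ X.gr (a + 1) ((m : ℤ) - (a + 1)) := by
    have := (hzE (a + 1)).1
    rwa [show (m : ℤ) - (a + 1) + ((a : ℤ) + 1) - ((a + 1 : ℕ) : ℤ) = (m : ℤ) - (a + 1) by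
      push_cast; ring] at this
  have hr : X.res (a + 1) (z (a + 1)) = 0 := by
    have h1 : X.diff ((a : ℤ) + 1) z = 0 := hz2
    rw [hz, show (a : ℤ) + 1 = ((a + 1 : ℕ) : ℤ) by push_cast; ring, diff_single_pos] at h1
    have h2 := congrFun h1 (a + 1 + 1)
    rw [Pi.single_eq_same] at h2
    exact h2
  obtain ⟨x, hx, hG⟩ := hK _ hg hr
  have hR : X.res (a + 1) (z (a + 1) - X.res a x) = 0 := by
    rw [map_sub, hr, X.res_res, sub_zero]
  refine Submodule.mem_sup.2 ⟨Pi.single (a + 1) (z (a + 1) - X.res a x), ⟨?_, ?_⟩,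
    X.diff a (Pi.single a x), ?_, ?_⟩
  · apply X.single_mem
    · have := inCol_neg_self (a + 1)
      rwa [show ((a + 1 : ℕ) : ℤ) = (a : ℤ) + 1 by push_cast; ring] at this
    · rw [show (n : ℤ) + ((m : ℤ) - n) - -((a : ℤ) + 1) + -((a : ℤ) + 1) - ((a + 1 : ℕ) : ℤ) =
        (m : ℤ) - (a + 1) by push_cast; ring]
      exact Submodule.sub_mem _ hg (X.res_gr a _ _ hx)
  · exact diff_single_neg_apply X a _ hG hR
  · refine ⟨Pi.single a x, ?_, by rw [show (a : ℤ) + 1 - 1 = a by ring]⟩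
    rw [show (a : ℤ) + 1 - 1 = a by ring]
    apply X.single_mem (inCol_self a)
    rwa [show (n : ℤ) + ((m : ℤ) - n - 1) - (a : ℤ) + a - a = (m : ℤ) - (a + 1) by ring]
  · rw [diff_single_pos, ← Pi.single_add, sub_add_cancel]
    exact hz.symm

lemma divCrit_of_nInj (a : ℕ)
    (h : NInj X.diff X.tot ((a : ℤ) + 1) (((a + 3 : ℕ) : ℤ) - n)) : DivCrit X a := by
  intro y hy hG
  have h1 : (Pi.single (a + 1) (X.res a y) : X.C) ∈
      Bd X.diff X.tot (-((a : ℤ) + 1)) (((a + 3 : ℕ) : ℤ) - n) := by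
    apply h
    refine ⟨⟨?_, ?_⟩, ?_⟩
    · apply X.single_mem
      · have := inCol_neg_self (a + 1)
        rwa [show ((a + 1 : ℕ) : ℤ) = (a : ℤ) + 1 by push_cast; ring] at this
      · rw [show (n : ℤ) + (((a + 3 : ℕ) : ℤ) - n) - -((a : ℤ) + 1) + -((a : ℤ) + 1) -
          ((a + 1 : ℕ) : ℤ) = 2 by push_cast; ring]
        exact X.res_gr a _ _ hy
    · exact diff_single_neg_apply X a _ hG (X.res_res a y)
    · refine ⟨Pi.single a y, ?_, by rw [show (a : ℤ) + 1 - 1 = a by ring, diff_single_pos]⟩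
      rw [show (a : ℤ) + 1 - 1 = a by ring]
      apply X.single_mem (inCol_self a)
      rwa [show (n : ℤ) + (((a + 3 : ℕ) : ℤ) - n - 1) - (a : ℤ) + a - a = 2 by push_cast; ring]
  obtain ⟨v', hv', hvx⟩ := h1
  have hv2 : v' ∈ X.E₁ (-((a : ℤ) + 2)) (2 * (a : ℤ) + 4) :=
    X.mem_E₁_cast (by ring) (by push_cast; ring) hv'
  have hs := eq_single X (a := a + 2)
    (by rw [abs_neg, abs_of_nonneg (by positivity)]; push_cast; rfl) (by push_cast; omega) hv2
  have hg : v' (a + 2) ∈ X.gr (a + 2) 0 := by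
    have := (hv2 (a + 2)).1
    rwa [show 2 * (a : ℤ) + 4 + -((a : ℤ) + 2) - ((a + 2 : ℕ) : ℤ) = 0 by push_cast; ring] at this
  refine ⟨v' (a + 2), hg, ?_, ?_⟩
  · have h2 := congrFun hvx (a + 3)
    rw [X.diff_apply, show -((a : ℤ) + 1) - 1 + 1 = -((a : ℤ) + 1) by ring, X.cut_of,
      Pi.add_apply, X.gysC_apply, X.resC_succ, Pi.single_eq_of_ne (by omega)] at h2
    · have h3 : v' (a + 3 + 1) = 0 := by
        rw [hs, Pi.single_eq_of_ne (by omega)]
      rwa [h3, map_zero, add_zero] at h2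
    · refine ⟨?_, ⟨(a : ℤ) + 2, by push_cast; ring⟩⟩
      rw [abs_neg, abs_of_nonneg (by positivity)]
      push_cast
      omega
  · have h2 := congrFun hvx (a + 1)
    rw [X.diff_apply, show -((a : ℤ) + 1) - 1 + 1 = -((a : ℤ) + 1) by ring, X.cut_of,
      Pi.add_apply, X.gysC_apply, X.resC_succ, Pi.single_eq_same] at h2
    · have h3 : v' a = 0 := by
        rw [hs, Pi.single_eq_of_ne (by omega)]
      rw [h3, map_zero, zero_add] at h2
      exact h2.symm
    · have := inCol_neg_self (a + 1)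
      rwa [show ((a + 1 : ℕ) : ℤ) = (a : ℤ) + 1 by push_cast; ring] at this

lemma nInj_of_divCrit (a : ℕ) (h : DivCrit X a) :
    NInj X.diff X.tot ((a : ℤ) + 1) (((a + 3 : ℕ) : ℤ) - n) := by
  apply nInj_of
  intro y hy hG
  rw [show ((a + 3 : ℕ) : ℤ) - ((a : ℤ) + 1) = 2 by push_cast; ring] at hy
  obtain ⟨v, hv, hR, hyv⟩ := h y hy hG
  have := single_mem_cob X a hv hR
  rw [hyv]
  rwa [show 2 + 2 * ((a : ℤ) + 1) = ((a + 3 : ℕ) : ℤ) + ((a : ℤ) + 1) by push_cast; ring] at this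

end low

section classes

variable {X : SpecialFibre.{u, v} Ω Γ n q} (A : DivisorClasses X)
include A

lemma nSurj_top (m : ℕ) (hm : 1 ≤ m) : NSurj X.diff X.tot m ((m : ℤ) - n) := by
  obtain ⟨a, rfl⟩ : ∃ a, m = a + 1 := ⟨m - 1, by omega⟩
  have := nSurj_of_decomp X a (a + 1) (by omega) (fun z hz hR => ?_)
  · rwa [show ((a + 1 : ℕ) : ℤ) = (a : ℤ) + 1 by push_cast; ring] at this ⊢
  · rw [show (((a + 1 : ℕ) : ℤ)) - ((a : ℤ) + 1) = 0 by push_cast; ring] at hz ⊢
    obtain ⟨x, hx, ho⟩ := exists_harm (X := X) a (n - (a + 1)) 0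
      (fun x hx h => image0 A a hx h) z
    refine ⟨x, hx, gys_harm A a (Submodule.sub_mem _ hz (X.res_gr a _ _ hx)) ?_ ho⟩
    rw [map_sub, hR, X.res_res, sub_zero]

omit A in
lemma lef_gys_eq_zero (a : ℕ) {h : X.H (a + 1)} (hh : h ∈ X.gr (a + 1) 1)
    (ho : ∀ u ∈ X.gr a 1, X.pair (a + 1) h ((X.lef (a + 1) ^ (n - a - 2)) (X.res a u)) = 0) :
    (X.lef a ^ (n - a - 2)) (X.gys a h) = 0 := by
  by_cases hna : a + 2 ≤ n
  · apply eq_zero_of_orth X a (lef_pow_gr X a _ (X.gys_gr a 1 h hh))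
    intro b hb
    have hb1 : b ∈ X.gr a 1 := by
      rwa [show 2 * ((n : ℤ) - a) - (1 + 2 + 2 * ((n - a - 2 : ℕ) : ℤ)) = 1 by omega] at hb
    rw [lef_pow_pair, X.pair_gys, res_lef_pow]
    exact ho b hb1
  · have h0 : h = 0 := by
      rw [X.gr_eq_bot (a + 1) 1 (Or.inr (by push_cast; omega))] at hh
      exact hh
    rw [h0, map_zero, map_zero]

lemma nSurj_one (a : ℕ) (hP : PrimGysin X a) :
    NSurj X.diff X.tot ((a : ℤ) + 1) (((a + 2 : ℕ) : ℤ) - n) := by
  refine nSurj_of_decomp X a (a + 2) le_rfl (fun z hz hR => ?_)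
  rw [show (((a + 2 : ℕ) : ℤ)) - ((a : ℤ) + 1) = 1 by push_cast; ring] at hz ⊢
  obtain ⟨x, hx, ho⟩ := exists_harm (X := X) a (n - a - 2) 1 (fun x hx h => A.weil_one a x hx h) z
  have hh := Submodule.sub_mem _ hz (X.res_gr a _ _ hx)
  refine ⟨x, hx, hP _ hh ?_ (lef_gys_eq_zero a hh ho)⟩
  rw [map_sub, hR, X.res_res, sub_zero]

lemma primGysin_of_nSurj (a : ℕ)
    (hS : NSurj X.diff X.tot ((a : ℤ) + 1) (((a + 2 : ℕ) : ℤ) - n)) : PrimGysin X a := by
  intro h hh hR hL
  replace hL : (X.lef a ^ (n - a - 2)) (X.gys a h) = 0 := hL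
  have h1 : (Pi.single (a + 1) h : X.C) ∈
      Zc X.diff X.tot ((a : ℤ) + 1) (((a + 2 : ℕ) : ℤ) - n) := by
    refine ⟨?_, ?_⟩
    · apply X.single_mem (inCol_succ_self a)
      rwa [show (n : ℤ) + (((a + 2 : ℕ) : ℤ) - n) - ((a : ℤ) + 1) + ((a : ℤ) + 1) -
          ((a + 1 : ℕ) : ℤ) = 1 by push_cast; ring]
    · show X.diff ((a : ℤ) + 1) (Pi.single (a + 1) h) = 0
      rw [show (a : ℤ) + 1 = ((a + 1 : ℕ) : ℤ) by push_cast; ring, diff_single_pos, hR,
        Pi.single_zero]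
  obtain ⟨k, hk, b, hb, hkb⟩ := Submodule.mem_sup.1 (hS h1)
  obtain ⟨hk1, hk2⟩ := hk
  have hkE : k ∈ X.E₁ (-((a : ℤ) + 1)) (2 * (a : ℤ) + 3) :=
    X.mem_E₁_cast rfl (by push_cast; ring) hk1
  have hks := eq_single X (a := a + 1)
    (by rw [abs_neg, abs_of_nonneg (by positivity)]; push_cast; rfl) (by push_cast; omega) hkE
  have hkg : X.gys a (k (a + 1)) = 0 := by
    have h2 : X.diff (-((a : ℤ) + 1)) k = 0 := hk2
    have h3 := congrFun h2 a
    rw [X.diff_apply, show -((a : ℤ) + 1) + 1 = -(a : ℤ) by ring, X.cut_of (inCol_neg_self a),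
      Pi.add_apply, X.gysC_apply] at h3
    cases a with
    | zero =>
      rw [X.resC_zero, zero_add] at h3
      exact h3
    | succ a =>
      have h4 : k a = 0 := by
        rw [hks, Pi.single_eq_of_ne (by omega)]
      rw [X.resC_succ, h4, map_zero, zero_add] at h3
      exact h3
  obtain ⟨y, hy, hyb⟩ := hb
  rw [show (a : ℤ) + 1 - 1 = a by ring] at hy hyb
  have hyE : y ∈ X.E₁ a 1 := X.mem_E₁_cast rfl (by push_cast; ring) hy
  have hys := eq_single X (a := a) (by rw [Nat.abs_cast]) (by omega) hyE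
  have hyg : y a ∈ X.gr a 1 := by
    have := (hyE a).1
    rwa [show (1 : ℤ) + a - a = 1 by ring] at this
  rw [hys, diff_single_pos] at hyb
  have e : h = k (a + 1) + X.res a (y a) := by
    have h5 := congrFun hkb (a + 1)
    rw [Pi.add_apply, ← hyb, Pi.single_eq_same, Pi.single_eq_same] at h5
    exact h5.symm
  have hG : X.gys a h = X.gys a (X.res a (y a)) := by
    rw [e, map_add, hkg, zero_add]
  have hr0 : X.res a (y a) = 0 := by
    apply A.weil_one a _ hyg
    intro u _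
    rw [← res_lef_pow, ← X.pair_gys, ← lef_pow_pair, ← hG, hL, map_zero, LinearMap.zero_apply]
  rw [hG, hr0, map_zero]

/-- Divisor classes satisfy the criterion in degree two. -/
lemma divCrit_of_span (a : ℕ) (ha : a + 3 ≤ n)
    (hA : X.gr a 2 ≤ Submodule.span Ω (A.A1 a : Set (X.H a)) ⊔ LinearMap.ker (X.res a)) :
    DivCrit X a := by
  intro y hy hG
  obtain ⟨y1, hy1, y2, hy2, rfl⟩ := Submodule.mem_sup.1 (hA hy)
  have h2 : X.res a y2 = 0 := hy2
  rw [map_add, h2, add_zero] at hG ⊢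
  obtain ⟨v, hv, hR, hz⟩ := crit2 A a ha hy1 hG
  exact ⟨v, hv, hR, hz⟩

end classes

section Generic

variable (X : SemistableModel.{u, v} Ω Γ n q)

lemma primGysin_top (X : SpecialFibre.{u, v} Ω Γ n q) (a : ℕ) (ha : n ≤ a + 2) :
    PrimGysin X a := by
  intro h _ _ hL
  replace hL : (X.lef a ^ (n - a - 2)) (X.gys a h) = 0 := hL
  rw [show n - a - 2 = 0 by omega, pow_zero] at hL
  exact hL

lemma grIso_middle (e : ℕ) : GrIso X n e ↔ GrInj X n e := by
  constructor
  · exact fun h => h.1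
  · intro h
    exact ⟨h, (grInj_dual X n n e (by ring)).1 h⟩

variable {X} (A : DivisorClasses X.toSpecialFibre)
include A

theorem grIso_top (m : ℕ) (hm : 1 ≤ m) : GrIso X m m :=
  ⟨(grInj_iff X m m).2 (nInj_top A m hm), (grSurj_iff X m m).2 (nSurj_top A m hm)⟩

theorem grInj_one (m : ℕ) (hm : 2 ≤ m) : GrInj X m (m - 1) :=
  (grInj_iff X m (m - 1)).2 (nInj_one A m hm)

theorem grIso_one (a : ℕ) : GrIso X (a + 2) (a + 1) ↔ PrimGysin X.toSpecialFibre a := by
  have h1 := grInj_one A (a + 2) (by omega)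
  constructor
  · rintro ⟨-, h⟩
    apply primGysin_of_nSurj A
    have h2 := (grSurj_iff X (a + 2) (a + 1)).1 h
    rwa [show ((a + 1 : ℕ) : ℤ) = (a : ℤ) + 1 by push_cast; ring] at h2
  · intro h
    refine ⟨h1, (grSurj_iff X (a + 2) (a + 1)).2 ?_⟩
    rw [show ((a + 1 : ℕ) : ℤ) = (a : ℤ) + 1 by push_cast; ring]
    exact nSurj_one A a h

omit A in
theorem grInj_two (a : ℕ) : GrInj X (a + 3) (a + 1) ↔ DivCrit X.toSpecialFibre a := by
  rw [grInj_iff, show ((a + 1 : ℕ) : ℤ) = (a : ℤ) + 1 by push_cast; ring]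
  exact ⟨divCrit_of_nInj _ a, nInj_of_divCrit _ a⟩

theorem katoAt_zero : KatoAt X 0 := by
  rw [katoAt_iff]
  intro e he
  exact grIso_triv X 0 e (Or.inl (by omega))

theorem katoAt_one : KatoAt X 1 := by
  rw [katoAt_iff]
  intro e he
  rcases Nat.lt_or_ge 1 e with h | h
  · exact grIso_triv X 1 e (Or.inl h)
  · obtain rfl : e = 1 := by omega
    exact grIso_top A 1 le_rfl

theorem katoAt_two : KatoAt X 2 ↔ PrimGysin X.toSpecialFibre 0 := by
  rw [katoAt_iff]
  constructor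
  · intro h
    exact (grIso_one A 0).1 (h 1 le_rfl)
  · intro h e he
    rcases Nat.lt_or_ge 2 e with h2 | h2
    · exact grIso_triv X 2 e (Or.inl h2)
    · interval_cases e
      · exact (grIso_one A 0).2 h
      · exact grIso_top A 2 (by norm_num)

omit A in
theorem katoAt_big (m : ℕ) (hm : 2 * n ≤ m) : KatoAt X m := by
  rw [katoAt_iff]
  intro e he
  exact grIso_triv X m e (Or.inr (by omega))

/-- The middle degree. -/
theorem katoAt_middle (h3 : 3 ≤ n → DivCrit X.toSpecialFibre (n - 3))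
    (h4 : HighCrit X.toSpecialFibre) : KatoAt X n := by
  rw [katoAt_iff]
  intro e he
  rw [grIso_middle]
  rcases Nat.lt_or_ge n e with h | h
  · exact (grIso_triv X n e (Or.inl h)).1
  by_cases h1 : e = n
  · subst h1
    exact (grIso_top A e he).1
  by_cases h2 : e + 1 = n
  · have := grInj_one A n (by omega)
    rwa [show n - 1 = e by omega] at this
  by_cases h5 : e + 2 = n
  · obtain ⟨a, rfl⟩ : ∃ a, e = a + 1 := ⟨e - 1, by omega⟩
    subst h5
    exact (grInj_two a).2 (h3 (by omega))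
  · obtain ⟨a, rfl⟩ : ∃ a, e = a + 1 := ⟨e - 1, by omega⟩
    rw [grInj_iff, show ((a + 1 : ℕ) : ℤ) = (a : ℤ) + 1 by push_cast; ring]
    apply nInj_of
    intro y hy hG
    rw [h4 a (by omega) y hy hG, Pi.single_zero]
    exact Submodule.zero_mem _

end Generic

section three

variable {X : SemistableModel.{u, v} Ω Γ 3 q} (A : DivisorClasses X.toSpecialFibre)
include A

theorem katoAt_three : KatoAt X 3 ↔ DivCrit X.toSpecialFibre 0 := by
  rw [katoAt_iff]
  constructor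
  · intro h
    exact (grInj_two 0).1 (h 1 le_rfl).1
  · intro h e he
    rw [grIso_middle]
    rcases Nat.lt_or_ge 3 e with h2 | h2
    · exact (grIso_triv X 3 e (Or.inl h2)).1
    · interval_cases e
      · exact (grInj_two 0).2 h
      · exact grInj_one A 3 (by norm_num)
      · exact (grIso_top A 3 (by norm_num)).1

/-- Kato's conjecture for a threefold, in all degrees, is equivalent to the two criteria. -/
theorem kato_three_iff : (∀ m, KatoAt X m) ↔
    PrimGysin X.toSpecialFibre 0 ∧ DivCrit X.toSpecialFibre 0 := by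
  constructor
  · intro h
    exact ⟨(katoAt_two A).1 (h 2), (katoAt_three A).1 (h 3)⟩
  · rintro ⟨h1, h2⟩ m
    rcases Nat.lt_or_ge m 6 with hm | hm
    · interval_cases m
      · exact katoAt_zero A
      · exact katoAt_one A
      · exact (katoAt_two A).2 h1
      · exact (katoAt_three A).2 h2
      · exact (katoAt_dual X 4 2 (by norm_num)).2 ((katoAt_two A).2 h1)
      · exact (katoAt_dual X 5 1 (by norm_num)).2 (katoAt_one A)
    · exact katoAt_big m (by omega)

end three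

end Pool.Agent.Helper60K9.KL
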