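import Pool.Agent.Helper60K9.KL.Curves

/-!
# The middle degree
-/

namespace Pool.Agent.Helper60K9.KL

universe u v

open Module Pool.Agent.Y143 Pool.Agent.X302.MW

variable {Ω : Type u} [Field Ω] [CharZero Ω] {Γ : Type} {n q : ℕ}

lemma nInj_iff_midCrit (X : SpecialFibre.{u, v} Ω Γ n q) (a : ℕ) :
    NInj X.diff X.tot ((a : ℤ) + 1) ((n : ℤ) - n) ↔ MidCrit X a := by
  constructor
  · intro h y hy hG
    show (Pi.single (a + 1) (X.res a y) : X.C) ∈
      X.coboundaries (-((a : ℤ) + 1)) ((n : ℤ) + (a + 1))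
    have h1 : (Pi.single (a + 1) (X.res a y) : X.C) ∈
        Bd X.diff X.tot (-((a : ℤ) + 1)) ((n : ℤ) - n) := by
      apply h
      refine ⟨⟨?_, ?_⟩, ?_⟩
      · apply X.single_mem
        · have := inCol_neg_self (a + 1)
          rwa [show ((a + 1 : ℕ) : ℤ) = (a : ℤ) + 1 by push_cast; ring] at this
        · rw [show (n : ℤ) + ((n : ℤ) - n) - -((a : ℤ) + 1) + -((a : ℤ) + 1) -
            ((a + 1 : ℕ) : ℤ) = (n : ℤ) - (a + 1) by push_cast; ring]
          exact X.res_gr a _ _ hy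
      · exact diff_single_neg_apply X a _ hG (X.res_res a y)
      · refine ⟨Pi.single a y, ?_, by rw [show (a : ℤ) + 1 - 1 = a by ring, diff_single_pos]⟩
        rw [show (a : ℤ) + 1 - 1 = a by ring]
        apply X.single_mem (inCol_self a)
        rwa [show (n : ℤ) + ((n : ℤ) - n - 1) - (a : ℤ) + a - a = (n : ℤ) - (a + 1) by
          push_cast; ring]
    rwa [X.bd_eq, show (n : ℤ) + ((n : ℤ) - n) - -((a : ℤ) + 1) = n + (a + 1) by ring] at h1
  · intro h
    exact nInj_of X a n fun y hy hG => h y hy hG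

theorem grIso_iff_midCrit (X : SemistableModel.{u, v} Ω Γ n q) (a : ℕ) :
    GrIso X n (a + 1) ↔ MidCrit X.toSpecialFibre a := by
  rw [grIso_middle, grInj_iff, show ((a + 1 : ℕ) : ℤ) = (a : ℤ) + 1 by push_cast; ring,
    nInj_iff_midCrit]

lemma midCrit_three {X : SemistableModel.{u, v} Ω Γ n q} {a : ℕ} (ha : n = a + 3) :
    MidCrit X.toSpecialFibre a ↔ DivCrit X.toSpecialFibre a := by
  subst ha
  rw [← grIso_iff_midCrit, grIso_middle]
  exact grInj_two a

theorem katoAt_iff_mid {X : SemistableModel.{u, v} Ω Γ n q} (A : DivisorClasses X.toSpecialFibre) :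
    KatoAt X n ↔ ∀ a, a + 3 ≤ n → MidCrit X.toSpecialFibre a := by
  rw [katoAt_iff]
  constructor
  · intro h a _
    exact (grIso_iff_midCrit X a).1 (h (a + 1) (by omega))
  · intro h e he
    rcases Nat.lt_or_ge n e with h1 | h1
    · exact grIso_triv X n e (Or.inl h1)
    by_cases h2 : e = n
    · subst h2
      exact grIso_top A e he
    by_cases h3 : e + 1 = n
    · obtain ⟨a, rfl⟩ : ∃ a, e = a + 1 := ⟨e - 1, by omega⟩
      subst h3
      exact (grIso_one A a).2 (primGysin_top _ a le_rfl)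
    · obtain ⟨a, rfl⟩ : ∃ a, e = a + 1 := ⟨e - 1, by omega⟩
      exact (grIso_iff_midCrit X a).2 (h a (by omega))

lemma midCrit_of_zero {X : SpecialFibre.{u, v} Ω Γ n q} {a : ℕ}
    (h : ZeroCrit (X.gr a ((n : ℤ) - (a + 1))) (X.res a) (X.gys a)) : MidCrit X a := by
  intro y hy hG
  show (Pi.single (a + 1) (X.res a y) : X.C) ∈
    X.coboundaries (-((a : ℤ) + 1)) ((n : ℤ) + (a + 1))
  rw [h y hy hG, Pi.single_zero]
  exact Submodule.zero_mem _

end Pool.Agent.Helper60K9.KL
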